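import Pool.Agent.Helper92.GG.Stmts

set_option autoImplicit false

namespace Pool.Agent.Helper92.GG

open MvPolynomial
open Pool.Agent.Helper49.Girth (cl ty)

universe u

/-- Lifting a homomorphism from a field `M` and generators `y` to an algebraic extension. -/
theorem CONJ_gen {K M L L' : Type u} [Field K] [Field M] [Field L] [Field L'] [Algebra K L]
    [Algebra M L] [IsAlgClosed L'] (θ₀ : M →+* L') {ι : Type} (y : ι → L) (y' : ι → L')
    (hk : ∀ f : MvPolynomial ι M, aeval y f = 0 ↔ eval₂ θ₀ y' f = 0)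
    (F : IntermediateField K L) (hM : ∀ m : M, algebraMap M L m ∈ F) (hy : ∀ i, y i ∈ F)
    (halg : ∀ a ∈ F, IsAlgebraic (Algebra.adjoin M (Set.range y)) a) :
    ∃ θ : F →+* L', (∀ (m : M) (b : F), (b : L) = algebraMap M L m → θ b = θ₀ m) ∧
      ∀ (i : ι) (b : F), (b : L) = y i → θ b = y' i := by
  classical
  set g : MvPolynomial ι M →ₐ[M] L := aeval y with hg
  have hR : g.range = Algebra.adjoin M (Set.range y) := (Algebra.adjoin_range_eq_range_aeval M y).symm
  set h : MvPolynomial ι M →+* L' := eval₂Hom θ₀ y' with hh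
  have hsurj : Function.Surjective (g.rangeRestrict : MvPolynomial ι M →+* g.range) := by
    intro b
    obtain ⟨f, hf⟩ := b.2
    exact ⟨f, Subtype.ext hf⟩
  have hker : RingHom.ker (g.rangeRestrict : MvPolynomial ι M →+* g.range) ≤ RingHom.ker h := by
    intro f hf
    rw [RingHom.mem_ker] at hf ⊢
    have h1 : aeval y f = 0 := congrArg Subtype.val hf
    exact (hk f).1 h1
  set φ : g.range →+* L' := RingHom.liftOfSurjective _ hsurj ⟨h, hker⟩ with hφ
  have hφf : ∀ f : MvPolynomial ι M, φ (g.rangeRestrict f) = h f := fun f =>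
    RingHom.liftOfRightInverse_comp_apply _ _ _ ⟨h, hker⟩ f
  have hφinj : Function.Injective φ := by
    rw [injective_iff_map_eq_zero]
    intro b hb
    obtain ⟨f, hf⟩ := hsurj b
    rw [← hf] at hb ⊢
    have h2 : h f = 0 := (hφf f).symm.trans hb
    have h3 : aeval y f = 0 := (hk f).2 h2
    exact Subtype.ext h3
  -- the range is contained in `F`
  have hle : ∀ b : g.range, (b : L) ∈ F := by
    rintro ⟨b, f, rfl⟩
    show aeval y f ∈ F
    rw [aeval_def, eval₂_eq]
    refine sum_mem (fun d _ => mul_mem (hM _) (prod_mem (fun i _ => pow_mem (hy i) _)))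
  let inc : g.range →+* F :=
    { toFun := fun b => ⟨b, hle b⟩
      map_one' := Subtype.ext rfl
      map_mul' := fun a b => Subtype.ext rfl
      map_zero' := Subtype.ext rfl
      map_add' := fun a b => Subtype.ext rfl }
  have hinc : Function.Injective inc := by
    intro a b hab
    exact Subtype.ext (congrArg (fun z : F => (z : L)) hab)
  let _ : Algebra g.range F := inc.toAlgebra
  let _ : Algebra g.range L' := φ.toAlgebra
  have htf1 : Module.IsTorsionFree g.range F := by
    rw [Module.isTorsionFree_iff_algebraMap_injective]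
    exact hinc
  have htf2 : Module.IsTorsionFree g.range L' := by
    rw [Module.isTorsionFree_iff_algebraMap_injective]
    exact hφinj
  have halg' : Algebra.IsAlgebraic g.range F := by
    refine ⟨fun a => ?_⟩
    have h1 : IsAlgebraic g.range (a : L) := by
      rw [hR]
      exact halg a a.2
    obtain ⟨p, hp, hpa⟩ := h1
    refine ⟨p, hp, ?_⟩
    have h2 : ((Polynomial.aeval a p : F) : L) = Polynomial.aeval (a : L) p := by
      rw [Polynomial.aeval_def, Polynomial.aeval_def]
      have h3 := Polynomial.hom_eval₂ p (algebraMap g.range F) (algebraMap F L) a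
      exact h3
    apply Subtype.ext
    rw [h2, hpa]
    rfl
  let θ : F →ₐ[g.range] L' := IsAlgClosed.lift
  have hθ : ∀ b : g.range, θ (inc b) = φ b := fun b => θ.commutes b
  refine ⟨(θ : F →+* L'), ?_, ?_⟩
  · intro m b hb
    have h1 : b = inc (g.rangeRestrict (C m)) := by
      apply Subtype.ext
      rw [hb]
      show algebraMap M L m = aeval y (C m)
      rw [aeval_C]
    rw [h1]
    show θ (inc (g.rangeRestrict (C m))) = θ₀ m
    rw [hθ, hφf]
    show eval₂ θ₀ y' (C m) = θ₀ m
    rw [eval₂_C]
  · intro i b hb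
    have h1 : b = inc (g.rangeRestrict (X i)) := by
      apply Subtype.ext
      rw [hb]
      show y i = aeval y (X i)
      rw [aeval_X]
    rw [h1]
    show θ (inc (g.rangeRestrict (X i))) = y' i
    rw [hθ, hφf]
    show eval₂ θ₀ y' (X i) = y' i
    rw [eval₂_X]

/-- algebraic over a larger subring -/
theorem CONJ_alg_mono {L : Type u} [Field L] (A B : Subring L) (hAB : ∀ a ∈ A, a ∈ B) {a : L}
    (h : IsAlgebraic A a) : IsAlgebraic B a := by
  obtain ⟨p, hp, hpa⟩ := h
  let j : A →+* B :=
    { toFun := fun b => ⟨b, hAB b b.2⟩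
      map_one' := Subtype.ext rfl
      map_mul' := fun a b => Subtype.ext rfl
      map_zero' := Subtype.ext rfl
      map_add' := fun a b => Subtype.ext rfl }
  have hj : Function.Injective j := by
    intro x y hxy
    exact Subtype.ext (congrArg (fun z : B => (z : L)) hxy)
  refine ⟨p.map j, ?_, ?_⟩
  · intro h0
    exact hp (Polynomial.map_injective j hj (by rw [h0, Polynomial.map_zero]))
  · rw [Polynomial.aeval_def, Polynomial.eval₂_map]
    exact hpa

theorem st_CONJ : ST_CONJ.{u} := by
  intro K L L' _ _ _ _ _ _ ι x x' hx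
  obtain ⟨θ, h1, h2⟩ := CONJ_gen (K := K) (M := K) (algebraMap K L') x x' (fun f => by
      rw [hx f, aeval_def]) (cl K (Set.range x)) (fun m => (cl K (Set.range x)).algebraMap_mem m)
    (fun i => Pool.Agent.Helper49.Girth.mem_cl_of_mem (Set.mem_range_self i))
    (fun a ha => Pool.Agent.Helper49.Girth.mem_cl'.1 ha)
  refine ⟨{ θ with commutes' := ?_ }, fun i b hb => h2 i b hb⟩
  intro c
  exact h1 c _ rfl

theorem CONJR_halg {K L : Type u} [Field K] [Field L] [Algebra K L] (s : Set L) {ι : Type}
    (y : ι → L) (a : L) (ha : a ∈ cl K (s ∪ Set.range y)) :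
    IsAlgebraic (Algebra.adjoin (cl K s) (Set.range y)) a := by
  have h3 := Pool.Agent.Helper49.Girth.mem_cl'.1 ha
  have hle : ∀ b ∈ (Algebra.adjoin K (s ∪ Set.range y)).toSubring,
      b ∈ (Algebra.adjoin (cl K s) (Set.range y)).toSubring := by
    intro b hb
    have hb' : b ∈ Algebra.adjoin K (s ∪ Set.range y) := hb
    show b ∈ Algebra.adjoin (cl K s) (Set.range y)
    refine Algebra.adjoin_induction (p := fun b _ => b ∈ Algebra.adjoin (cl K s) (Set.range y))
      ?_ ?_ ?_ ?_ hb'
    · intro z hz
      rcases hz with hz | hz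
      · have h5 : algebraMap (cl K s) L ⟨z, Pool.Agent.Helper49.Girth.mem_cl_of_mem hz⟩ = z := rfl
        rw [← h5]
        exact Subalgebra.algebraMap_mem _ _
      · exact Algebra.subset_adjoin hz
    · intro r
      have h5 : algebraMap (cl K s) L (algebraMap K (cl K s) r) = algebraMap K L r := rfl
      rw [← h5]
      exact Subalgebra.algebraMap_mem _ _
    · intro a b _ _ ha hb
      exact add_mem ha hb
    · intro a b _ _ ha hb
      exact mul_mem ha hb
  exact CONJ_alg_mono _ _ hle h3

theorem st_CONJR : ST_CONJR.{u} := by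
  intro K L L' _ _ _ _ _ _ s θ₀ ι y y' hk
  obtain ⟨θ, h1, h2⟩ := CONJ_gen (K := K) (M := cl K s) (θ₀ : cl K s →+* L') y y' hk
    (cl K (s ∪ Set.range y))
    (fun m => Pool.Agent.Helper49.Girth.cl_mono Set.subset_union_left m.2)
    (fun i => Pool.Agent.Helper49.Girth.mem_cl_of_mem (Or.inr (Set.mem_range_self i)))
    (CONJR_halg s y)
  refine ⟨{ θ with commutes' := ?_ }, fun a b hb => h1 a b hb, fun i b hb => h2 i b hb⟩
  intro c
  have h3 := h1 (algebraMap K (cl K s) c) (algebraMap K (cl K (s ∪ Set.range y)) c) rfl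
  have h4 : (θ₀ : cl K s →+* L') (algebraMap K (cl K s) c) = algebraMap K L' c := θ₀.commutes c
  exact h3.trans h4

end Pool.Agent.Helper92.GG
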