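import Pool.Agent.Helper92.GG.Stmts
import Pool.Agent.Helper92.GG.RK
import Pool.Agent.Helper36.GG.CONJ

set_option autoImplicit false

namespace Pool.Agent.Helper92.GG

open MvPolynomial
open Pool.Agent.Helper49.Girth (cl mem_cl mem_cl' coe_cl subset_cl mem_cl_of_mem cl_le_cl cl_mono
  root_mem_cl aeval_mem)

universe u

/-- a family of full rank is independent -/
theorem FREE_indep {k L : Type u} [Field k] [Field L] [Algebra k L] {κ : Type} [Finite κ]
    (T : κ → L) (h : Nat.card κ ≤ rk k (Set.range T)) : AlgebraicIndependent k T := by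
  obtain ⟨J, h1, _, h3⟩ := exists_basis_family (K := k) T
  have hJ : J = Set.univ := by
    apply Set.eq_univ_of_univ_subset
    have h4 : (Set.univ : Set κ).ncard ≤ J.ncard := by
      rw [Set.ncard_univ, h3]
      exact h
    exact (Set.eq_of_subset_of_ncard_le (Set.subset_univ J) h4).symm.subset
  subst hJ
  exact h1.comp (fun i : κ => (⟨i, trivial⟩ : (Set.univ : Set κ)))
    (fun a b hab => congrArg Subtype.val hab)

theorem FREE_big {K Ω : Type u} [Field K] [Field Ω] [Algebra K Ω] [Big K Ω] (A : Set Ω)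
    (hA : A.Finite) : ∀ d : ℕ, ∃ T : Fin d → Ω, rk K (A ∪ Set.range T) = rk K A + d := by
  intro d
  induction d with
  | zero =>
    refine ⟨Fin.elim0, ?_⟩
    have : Set.range (Fin.elim0 : Fin 0 → Ω) = ∅ := Set.range_eq_empty _
    rw [this, Set.union_empty, add_zero]
  | succ d ih =>
    obtain ⟨T, hT⟩ := ih
    obtain ⟨a, ha⟩ := Big.big (K := K) (A ∪ Set.range T) (hA.union (Set.finite_range T))
    refine ⟨Fin.cons a T, ?_⟩
    have h1 : A ∪ Set.range (Fin.cons a T : Fin (d + 1) → Ω) = insert a (A ∪ Set.range T) := by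
      rw [Fin.range_cons, Set.union_insert]
    rw [h1, rk_insert_of_notMem (hA.union (Set.finite_range T)) ha, hT]
    omega

theorem FREE_bigκ {K Ω : Type u} [Field K] [Field Ω] [Algebra K Ω] [Big K Ω] (A : Set Ω)
    (hA : A.Finite) (κ : Type) [Finite κ] :
    ∃ T : κ → Ω, rk K (A ∪ Set.range T) = rk K A + Nat.card κ := by
  obtain ⟨T, hT⟩ := FREE_big (K := K) A hA (Nat.card κ)
  refine ⟨T ∘ Finite.equivFin κ, ?_⟩
  rw [(Finite.equivFin κ).surjective.range_comp, hT]

theorem FREE_core {K Ω : Type u} [Field K] [Field Ω] [Algebra K Ω] [IsAlgClosed Ω]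
    (s : Set Ω) (J : Type) (b T : J → Ω) (hb : AlgebraicIndependent (cl K s) b)
    (hT : AlgebraicIndependent (cl K s) T) :
    ∃ θ : cl K (s ∪ Set.range b) →ₐ[K] Ω,
      (∀ (a : Ω) (_ : a ∈ cl K s) (c : cl K (s ∪ Set.range b)), (c : Ω) = a → θ c = a) ∧
      ∀ (i : J) (c : cl K (s ∪ Set.range b)), (c : Ω) = b i → θ c = T i := by
  have hker : ∀ f : MvPolynomial J (cl K s), aeval b f = 0 ↔
      eval₂ (((cl K s).val : cl K s →ₐ[K] Ω) : cl K s →+* Ω) T f = 0 := by
    intro f
    constructor
    · intro h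
      have h0 : f = 0 := (algebraicIndependent_iff.mp hb) f h
      rw [h0, eval₂_zero]
    · intro h
      have h0 : f = 0 := (algebraicIndependent_iff.mp hT) f h
      rw [h0, map_zero]
  obtain ⟨θ, hθ1, hθ2⟩ := st_CONJR K Ω Ω s (cl K s).val J b T hker
  exact ⟨θ, fun a ha c hc => hθ1 ⟨a, ha⟩ c hc, hθ2⟩

/-- an embedding which fixes `cl K s` gives conjugates over `cl K s` -/
theorem FREE_conj {K L Ω : Type u} [Field K] [Field L] [Field Ω] [Algebra K L] [Algebra K Ω]
    (s : Set L) (F : IntermediateField K L) (hMF : ∀ a ∈ cl K s, a ∈ F)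
    [Algebra (cl K s) Ω] (θ : F →ₐ[K] Ω)
    (hθ : ∀ (a : cl K s) (c : F), (c : L) = a → θ c = algebraMap (cl K s) Ω a)
    {ι : Type} (y : ι → F) :
    Conj (cl K s) (fun i => (y i : L)) (fun i => θ (y i)) := by
  let inc : cl K s →+* F :=
    { toFun := fun a => ⟨a, hMF a a.2⟩
      map_one' := Subtype.ext rfl
      map_mul' := fun a b => Subtype.ext rfl
      map_zero' := Subtype.ext rfl
      map_add' := fun a b => Subtype.ext rfl }
  intro f
  have h1 : (F.val : F →+* L) (eval₂ inc y f) = aeval (fun i => (y i : L)) f :=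
    eval₂_comp_left (F.val : F →+* L) inc y f
  have h2 : (θ : F →+* Ω) (eval₂ inc y f) = aeval (fun i => θ (y i)) f := by
    have h3 := eval₂_comp_left (θ : F →+* Ω) inc y f
    have h4 : (θ : F →+* Ω).comp inc = algebraMap (cl K s) Ω := by
      ext a
      exact hθ a (inc a) rfl
    rw [h4] at h3
    exact h3
  rw [← h1, ← h2]
  rw [map_eq_zero_iff (F.val : F →+* L) (F.val : F →+* L).injective,
    map_eq_zero_iff (θ : F →+* Ω) (θ : F →+* Ω).injective]

theorem st_FREE : ST_FREE.{u} := by
  intro K Ω _ _ _ _ s A hs hA hsA ι _ y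
  have hcl : IsAlgClosed Ω := Big.alg K
  obtain ⟨J, hJ1, hJ2, hJ3⟩ := exists_basis_family (K := cl K s) y
  obtain ⟨T, hT⟩ := FREE_bigκ (K := K) A hA J
  have hJcard : Nat.card J = J.ncard := Nat.card_coe_set_eq J
  -- `T` is independent over `cl K s`
  have hTs : rk K (s ∪ Set.range T) = rk K s + Nat.card J := by
    apply le_antisymm
    · refine (rk_union_le hs (Set.finite_range T)).trans ?_
      exact Nat.add_le_add_left (rk_range_le T) _
    · have h1 := rk_submod (K := K) (A := s) (B := A) (C := Set.range T) hs hA (Set.finite_range T)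
      have h2 : s ∪ A = A := Set.union_eq_right.mpr hsA
      rw [h2, hT] at h1
      omega
  have hTind : AlgebraicIndependent (cl K s) T := by
    apply FREE_indep
    have h1 := rk_union_eq (K := K) hs (Set.finite_range T)
    rw [hTs] at h1
    exact (Nat.add_left_cancel h1).le
  obtain ⟨θ, hθ1, hθ2⟩ := FREE_core s J (fun j : J => y j) T hJ1 hTind
  have hymem : ∀ i, y i ∈ cl K (s ∪ Set.range fun j : J => y j) := fun i => cl_cl_mem.mp (hJ2 i)
  have hconj := FREE_conj (K := K) s (cl K (s ∪ Set.range fun j : J => y j))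
    (fun a ha => cl_mono Set.subset_union_left ha) θ (fun a c hc => hθ1 a a.2 c hc)
    (fun i => (⟨y i, hymem i⟩ : cl K (s ∪ Set.range fun j : J => y j)))
  refine ⟨fun i => θ ⟨y i, hymem i⟩, hconj, ?_⟩
  -- the rank
  have h1 : rk K (A ∪ Set.range fun i => θ ⟨y i, hymem i⟩) = rk K (A ∪ Set.range T) := by
    refine (rk_congr (cl_eq_of_subset ?_ ?_)).symm
    · apply Set.union_subset_union_right
      rintro _ ⟨j, rfl⟩
      exact ⟨j, hθ2 j _ rfl⟩
    · rintro a (ha | ⟨i, rfl⟩)
      · exact mem_cl_of_mem (Or.inl ha)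
      · have hfin : (s ∪ Set.range fun j : J => y j).Finite := hs.union (Set.finite_range _)
        have hS'im : (Subtype.val '' {x : cl K (s ∪ Set.range fun j : J => y j) |
            (x : Ω) ∈ (s ∪ Set.range fun j : J => y j)} : Set Ω)
            = s ∪ Set.range fun j : J => y j := by
          ext z
          constructor
          · rintro ⟨x, hx, rfl⟩
            exact hx
          · intro hz
            exact ⟨⟨z, subset_cl _ hz⟩, hz, rfl⟩
        have hS'fin : {x : cl K (s ∪ Set.range fun j : J => y j) |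
            (x : Ω) ∈ (s ∪ Set.range fun j : J => y j)}.Finite :=
          hfin.preimage Subtype.val_injective.injOn
        have h2 : θ ⟨y i, hymem i⟩ ∈ cl K (θ '' {x : cl K (s ∪ Set.range fun j : J => y j) |
            (x : Ω) ∈ (s ∪ Set.range fun j : J => y j)}) :=
          map_mem_cl_val _ θ hS'fin (by rw [hS'im]; exact hymem i)
        refine cl_mono ?_ h2
        rintro _ ⟨x, hx, rfl⟩
        rcases hx with hx | ⟨j, hj⟩
        · left
          have h3 : θ x = x := hθ1 x (subset_cl s hx) x rfl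
          rw [h3]
          exact hsA hx
        · right
          exact ⟨j, (hθ2 j x hj.symm).symm⟩
  have h2 := rk_union_eq (K := K) hs (Set.finite_range y)
  rw [h1, hT, h2, ← hJ3, hJcard]
  omega

end Pool.Agent.Helper92.GG
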