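import Pool.Agent.Helper92.GG.Stmts
import Pool.Agent.Helper92.GG.RK
import Pool.Agent.Helper36.GG.FREE

set_option autoImplicit false

namespace Pool.Agent.Helper92.GG

open MvPolynomial
open Pool.Agent.Helper49.Girth (cl ty mem_cl mem_cl' coe_cl subset_cl mem_cl_of_mem cl_le_cl cl_mono
  root_mem_cl aeval_mem)

universe u

section

variable {K : Type u} [Field K] {L L' : Type u} [Field L] [Field L'] [Algebra K L] [Algebra K L']

/-- conjugate over a larger field -/
theorem ENDS_conj_base {M : Type u} [Field M] [Algebra K M] [Algebra M L] [Algebra M L']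
    [IsScalarTower K M L] [IsScalarTower K M L'] {ι : Type} {y : ι → L} {y' : ι → L'}
    (h : Conj M y y') : Conj K y y' := by
  intro f
  have h1 := h (MvPolynomial.map (algebraMap K M) f)
  rw [aeval_map_algebraMap, aeval_map_algebraMap] at h1
  exact h1

/-- edges are preserved by conjugation -/
theorem ENDS_edge {n : ℕ} {P : Ideal (MvPolynomial (Fin n ⊕ Fin n) K)} {ι : Type} {y : ι → L}
    {y' : ι → L'} (h : Conj K y y') (τ : Bool) (p q : Fin n → ι)
    (he : Edge P τ (fun c => y (p c)) (fun c => y (q c))) :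
    Edge P τ (fun c => y' (p c)) (fun c => y' (q c)) := by
  cases τ with
  | true =>
    have e1 : (Sum.elim (cond true (fun c => y (p c)) (fun c => y (q c)))
        (cond true (fun c => y (q c)) (fun c => y (p c)))) = y ∘ Sum.elim p q := by
      funext c; cases c <;> rfl
    have e2 : (Sum.elim (cond true (fun c => y' (p c)) (fun c => y' (q c)))
        (cond true (fun c => y' (q c)) (fun c => y' (p c)))) = y' ∘ Sum.elim p q := by
      funext c; cases c <;> rfl
    unfold Edge at he ⊢
    rw [e1] at he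
    rw [e2, ← conj_iff_ker.mp (h.comp (Sum.elim p q))]
    exact he
  | false =>
    have e1 : (Sum.elim (cond false (fun c => y (p c)) (fun c => y (q c)))
        (cond false (fun c => y (q c)) (fun c => y (p c)))) = y ∘ Sum.elim q p := by
      funext c; cases c <;> rfl
    have e2 : (Sum.elim (cond false (fun c => y' (p c)) (fun c => y' (q c)))
        (cond false (fun c => y' (q c)) (fun c => y' (p c)))) = y' ∘ Sum.elim q p := by
      funext c; cases c <;> rfl
    unfold Edge at he ⊢
    rw [e1] at he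
    rw [e2, ← conj_iff_ker.mp (h.comp (Sum.elim q p))]
    exact he

/-- edges are preserved by embeddings -/
theorem ENDS_edge_map {n : ℕ} {P : Ideal (MvPolynomial (Fin n ⊕ Fin n) K)} (θ : L →ₐ[K] L')
    (τ : Bool) (x y : Fin n → L) (he : Edge P τ x y) :
    Edge P τ (fun c => θ (x c)) (fun c => θ (y c)) := by
  have h1 := conj_of_algHom θ (Sum.elim x y)
  exact ENDS_edge h1 τ Sum.inl Sum.inr he

/-- equalities over the base field are preserved by conjugation -/
theorem ENDS_conj_const {ι : Type} {y : ι → L} {y' : ι → L'} (h : Conj K y y') {i : ι} {a : K}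
    (hi : y i = algebraMap K L a) : y' i = algebraMap K L' a := by
  have h1 := (h (X i - C a)).mp (by rw [map_sub, aeval_X, aeval_C, hi, sub_self])
  rw [map_sub, aeval_X, aeval_C, sub_eq_zero] at h1
  exact h1

theorem ENDS_conj_eq {ι : Type} {y : ι → L} {y' : ι → L'} (h : Conj K y y') {i j : ι} :
    y i = y j ↔ y' i = y' j := by
  have h1 := h (X i - X j)
  rw [map_sub, map_sub, aeval_X, aeval_X, aeval_X, aeval_X, sub_eq_zero, sub_eq_zero] at h1
  exact h1

end

/-- the case of big fields -/
theorem ENDS_big (K : Type u) [Field K] [IsAlgClosed K] (n m k : ℕ) (S : Sys K n m k)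
    (Ω : Type u) [Field Ω] [Algebra K Ω] [Big K Ω] (σ : Bool) (r : ℕ) (v : ℕ → Fin n → Ω)
    (hr : r ≤ m) (hw : IsWalk S.P σ r v) (hnb : NB r v) (i : ℕ) (hi : i ≤ r) (c : Fin n) :
    v i c ∈ cl K (Set.range (v 0) ∪ Set.range (v r)) := by
  set s : Set Ω := Set.range (v 0) ∪ Set.range (v r) with hs
  have hsfin : s.Finite := (Set.finite_range _).union (Set.finite_range _)
  -- the tuple of all coordinates
  let y : Fin (r + 1) × Fin n → Ω := fun z => v z.1 z.2
  have hsy : s ⊆ Set.range y := by
    rintro a (⟨c, rfl⟩ | ⟨c, rfl⟩)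
    · exact ⟨(⟨0, by omega⟩, c), rfl⟩
    · exact ⟨(⟨r, by omega⟩, c), rfl⟩
  have hAfin : (Set.range y).Finite := Set.finite_range y
  obtain ⟨y', hconj, hrk⟩ := st_FREE K Ω s (Set.range y) hsfin hAfin hsy (Fin (r + 1) × Fin n) y
  have hconjK : Conj K y y' := ENDS_conj_base (M := cl K s) hconj
  -- the conjugate walk
  let g : ℕ → Fin (r + 1) := fun j => ⟨min j r, by omega⟩
  have hg : ∀ j ≤ r, ((g j : Fin (r + 1)) : ℕ) = j := fun j hj => min_eq_left hj
  let v' : ℕ → Fin n → Ω := fun j c => y' (g j, c)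
  have hv : ∀ j ≤ r, v j = fun c => y (g j, c) := by
    intro j hj
    funext c
    show v j c = v ((g j : Fin (r + 1)) : ℕ) c
    rw [hg j hj]
  have hw' : IsWalk S.P σ r v' := by
    intro j hj
    have h1 := hw j hj
    rw [hv j hj.le, hv (j + 1) hj] at h1
    exact ENDS_edge hconjK (ty σ j) (fun c => (g j, c)) (fun c => (g (j + 1), c)) h1
  have hnb' : NB r v' := by
    intro j hj heq
    apply hnb j hj
    rw [hv j (by omega), hv (j + 2) hj]
    funext c
    exact (ENDS_conj_eq hconjK).mpr (congrFun heq c)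
  have hends : ∀ j, (j = 0 ∨ j = r) → v j = v' j := by
    intro j hj
    have hjr : j ≤ r := by omega
    rw [hv j hjr]
    funext c
    have hmem : y (g j, c) ∈ cl K s := by
      apply mem_cl_of_mem
      show v ((g j : Fin (r + 1)) : ℕ) c ∈ s
      rw [hg j hjr]
      rcases hj with rfl | rfl
      · exact Or.inl ⟨c, rfl⟩
      · exact Or.inr ⟨c, rfl⟩
    have h1 := ENDS_conj_const (K := cl K s) (i := (g j, c)) (a := ⟨y (g j, c), hmem⟩) hconj rfl
    exact h1.symm
  have huniq := S.uniq Ω σ r r v v' (by omega) hw hw' hnb hnb' (hends 0 (Or.inl rfl)) rfl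
    (hends r (Or.inr rfl))
  have hyy : y' = y := by
    funext z
    have hz : (z.1 : ℕ) ≤ r := by omega
    have h1 := huniq.2 z.1 hz
    have h2 : g z.1 = z.1 := Fin.ext (hg z.1 hz)
    have h3 : v z.1 z.2 = y' (g z.1, z.2) := congrFun h1 z.2
    rw [h2] at h3
    exact h3.symm
  rw [hyy, Set.union_self, Set.union_eq_right.mpr hsy] at hrk
  have h5 : Set.range y ⊆ cl K s := subset_cl_of_rk_le hAfin hsy (by omega)
  have h6 : y (g i, c) ∈ cl K s := h5 ⟨(g i, c), rfl⟩
  have h7 : v i c = y (g i, c) := congrFun (hv i hi) c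
  rw [h7]
  exact h6

theorem st_ENDS (hBIG : ST_BIG.{u}) : ST_ENDS.{u} := by
  intro K _ _ n m k S L _ _ σ r v hr hw hnb i hi c
  obtain ⟨Ω, _, _, _, hT, hB⟩ := hBIG K L
  have h1 := ENDS_big K n m k S Ω σ r (fun j c => algebraMap L Ω (v j c)) hr
    (fun j hj => ENDS_edge_map (IsScalarTower.toAlgHom K L Ω) (ty σ j) (v j) (v (j + 1)) (hw j hj))
    (fun j hj heq => hnb j hj (by
      funext c
      exact (algebraMap L Ω).injective (congrFun heq c))) i hi c
  have h2 : (Set.range (fun c => algebraMap L Ω (v 0 c)) ∪ Set.range (fun c => algebraMap L Ω (v r c)))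
      = algebraMap L Ω '' (Set.range (v 0) ∪ Set.range (v r)) := by
    rw [Set.image_union, ← Set.range_comp, ← Set.range_comp]
    rfl
  have h3 : algebraMap L Ω (v i c) ∈ cl K (algebraMap L Ω '' (Set.range (v 0) ∪ Set.range (v r))) := by
    rw [← h2]
    exact h1
  exact (algebraMap_mem_cl_iff ((Set.finite_range _).union (Set.finite_range _))).mp h3

end Pool.Agent.Helper92.GG
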