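import Pool.Agent.Helper92.GG.Stmts
import Pool.Agent.Helper92.GG.RK
import Pool.Agent.Helper36.GG.ENDS

set_option autoImplicit false

namespace Pool.Agent.Helper92.GG

open MvPolynomial
open Pool.Agent.Helper49.Girth (cl ty mem_cl mem_cl' coe_cl subset_cl mem_cl_of_mem cl_le_cl cl_mono
  root_mem_cl aeval_mem)

universe u

theorem STEP_restrict {K L Ω : Type u} [Field K] [Field L] [Field Ω] [Algebra K L] [Algebra K Ω]
    (F₁ F₂ : IntermediateField K L) (hle : F₁ ≤ F₂) (θ : F₂ →ₐ[K] Ω) :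
    ∃ θ' : F₁ →ₐ[K] Ω, ∀ (b : F₁) (c : F₂), (b : L) = c → θ' b = θ c := by
  refine ⟨θ.comp (IntermediateField.inclusion hle), ?_⟩
  intro b c hbc
  have h : IntermediateField.inclusion hle b = c := Subtype.ext hbc
  rw [← h]
  rfl

/-- Extension of an embedding of `cl K s` to a tuple, freely from a given finite set. -/
theorem STEP_free {K L Ω : Type u} [Field K] [Field L] [Field Ω] [Algebra K L] [Algebra K Ω]
    [Big K Ω] (s : Set L) (hs : s.Finite) (θ₀ : cl K s →ₐ[K] Ω) (A : Set Ω) (hA : A.Finite)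
    (hθA : ∀ a, θ₀ a ∈ cl K A) {ι : Type} [Finite ι] (y : ι → L) :
    ∃ (y' : ι → Ω) (θ : cl K (s ∪ Set.range y) →ₐ[K] Ω),
      (∀ (a : cl K s) (b : cl K (s ∪ Set.range y)), (b : L) = a → θ b = θ₀ a) ∧
      (∀ (i : ι) (b : cl K (s ∪ Set.range y)), (b : L) = y i → θ b = y' i) ∧
      rk K (A ∪ Set.range y') + rk K s = rk K A + rk K (s ∪ Set.range y) := by
  have hcl : IsAlgClosed Ω := Big.alg K
  obtain ⟨J, hJ1, hJ2, hJ3⟩ := exists_basis_family (K := cl K s) y
  obtain ⟨T, hT⟩ := FREE_bigκ (K := K) A hA J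
  have hJcard : Nat.card J = J.ncard := Nat.card_coe_set_eq J
  have hTind : AlgebraicIndependent (cl K A) T := by
    apply FREE_indep
    have h1 := rk_union_eq (K := K) hA (Set.finite_range T)
    rw [hT] at h1
    exact (Nat.add_left_cancel h1).le
  let θA : cl K s →+* cl K A :=
    { toFun := fun a => ⟨θ₀ a, hθA a⟩
      map_one' := Subtype.ext (map_one θ₀)
      map_mul' := fun a b => Subtype.ext (map_mul θ₀ a b)
      map_zero' := Subtype.ext (map_zero θ₀)
      map_add' := fun a b => Subtype.ext (map_add θ₀ a b) }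
  have hcomp : (algebraMap (cl K A) Ω).comp θA = (θ₀ : cl K s →+* Ω) := by
    ext a
    rfl
  have hker : ∀ f : MvPolynomial J (cl K s), aeval (fun j : J => y j) f = 0 ↔
      eval₂ (θ₀ : cl K s →+* Ω) T f = 0 := by
    intro f
    constructor
    · intro h
      have h0 : f = 0 := (algebraicIndependent_iff.mp hJ1) f h
      rw [h0, eval₂_zero]
    · intro h
      have h1 : aeval T (MvPolynomial.map θA f) = 0 := by
        rw [aeval_def, eval₂_map, hcomp]
        exact h
      have h2 : MvPolynomial.map θA f = 0 := (algebraicIndependent_iff.mp hTind) _ h1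
      have h3 : f = 0 := by
        apply MvPolynomial.map_injective θA θA.injective
        rw [h2, map_zero]
      rw [h3, map_zero]
  obtain ⟨θ, hθ1, hθ2⟩ := st_CONJR K L Ω s θ₀ J (fun j : J => y j) T hker
  have hymem : ∀ i, y i ∈ cl K (s ∪ Set.range fun j : J => y j) := fun i => cl_cl_mem.mp (hJ2 i)
  have hle : cl K (s ∪ Set.range y) ≤ cl K (s ∪ Set.range fun j : J => y j) := by
    apply cl_le_cl
    rintro a (ha | ⟨i, rfl⟩)
    · exact mem_cl_of_mem (Or.inl ha)
    · exact hymem i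
  obtain ⟨θ', hθ'⟩ := STEP_restrict _ _ hle θ
  refine ⟨fun i => θ ⟨y i, hymem i⟩, θ', ?_, ?_, ?_⟩
  · intro a b hab
    exact (hθ' b ⟨b, hle b.2⟩ rfl).trans (hθ1 a ⟨b, hle b.2⟩ hab)
  · intro i b hb
    exact hθ' b ⟨y i, hymem i⟩ hb
  -- the rank
  have h1 : rk K (A ∪ Set.range fun i => θ ⟨y i, hymem i⟩) = rk K (A ∪ Set.range T) := by
    refine (rk_congr (cl_eq_of_subset ?_ ?_)).symm
    · apply Set.union_subset_union_right
      rintro _ ⟨j, rfl⟩
      exact ⟨j, hθ2 j _ rfl⟩
    · rintro a (ha | ⟨i, rfl⟩)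
      · exact mem_cl_of_mem (Or.inl ha)
      · have hfin : (s ∪ Set.range fun j : J => y j).Finite := hs.union (Set.finite_range _)
        have hS'im : (Subtype.val '' {x : cl K (s ∪ Set.range fun j : J => y j) |
            (x : L) ∈ (s ∪ Set.range fun j : J => y j)} : Set L)
            = s ∪ Set.range fun j : J => y j := by
          ext z
          constructor
          · rintro ⟨x, hx, rfl⟩
            exact hx
          · intro hz
            exact ⟨⟨z, subset_cl _ hz⟩, hz, rfl⟩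
        have hS'fin : {x : cl K (s ∪ Set.range fun j : J => y j) |
            (x : L) ∈ (s ∪ Set.range fun j : J => y j)}.Finite :=
          hfin.preimage Subtype.val_injective.injOn
        have h2 : θ ⟨y i, hymem i⟩ ∈ cl K (θ '' {x : cl K (s ∪ Set.range fun j : J => y j) |
            (x : L) ∈ (s ∪ Set.range fun j : J => y j)}) :=
          map_mem_cl_val _ θ hS'fin (by rw [hS'im]; exact hymem i)
        refine cl_le_cl ?_ h2
        rintro _ ⟨x, hx, rfl⟩
        rcases hx with hx | ⟨j, hj⟩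
        · have h3 : θ x = θ₀ ⟨x, subset_cl s hx⟩ := hθ1 ⟨x, subset_cl s hx⟩ x rfl
          rw [h3]
          exact cl_mono Set.subset_union_left (hθA _)
        · exact mem_cl_of_mem (Or.inr ⟨j, (hθ2 j x hj.symm).symm⟩)
  have h2 := rk_union_eq (K := K) hs (Set.finite_range y)
  rw [h1, hT, h2, ← hJ3, hJcard]
  omega

theorem st_STEP : ST_STEP.{u} := by
  intro K _ _ n m k S Ω _ _ _ σ x A hA hx
  have hcl : IsAlgClosed Ω := Big.alg K
  obtain ⟨L, _, _, p, q, hpq⟩ := S.ne
  -- an edge which starts at a vertex of type `σ`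
  obtain ⟨x0, y0, h0⟩ : ∃ x0 y0 : Fin n → L, Edge S.P σ x0 y0 := by
    cases σ with
    | true => exact ⟨p, q, hpq⟩
    | false => exact ⟨q, p, hpq⟩
  have hconj : Conj K x0 x := by
    rw [conj_iff_ker]
    unfold Vtx at hx
    rw [hx, ← h0]
    ext f
    rw [Ideal.mem_comap, RingHom.mem_ker, RingHom.mem_ker]
    have h1 : aeval (Sum.elim (cond σ x0 y0) (cond σ y0 x0))
        ((rename (R := K) (cond σ (Sum.inl : Fin n → Fin n ⊕ Fin n) Sum.inr)) f) = aeval x0 f := by
      rw [aeval_rename]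
      cases σ with
      | true => rfl
      | false => rfl
    constructor
    · intro h
      exact h1.trans h
    · intro h
      exact h1.symm.trans h
  obtain ⟨θ₀, hθ₀⟩ := st_CONJ K L Ω (Fin n) x0 x hconj
  have hθA : ∀ a, θ₀ a ∈ cl K (A ∪ Set.range x) := by
    intro a
    have hS'im : (Subtype.val '' {z : cl K (Set.range x0) | (z : L) ∈ Set.range x0} : Set L)
        = Set.range x0 := by
      ext z
      constructor
      · rintro ⟨w, hw, rfl⟩
        exact hw
      · intro hz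
        exact ⟨⟨z, subset_cl _ hz⟩, hz, rfl⟩
    have hS'fin : {z : cl K (Set.range x0) | (z : L) ∈ Set.range x0}.Finite :=
      (Set.finite_range x0).preimage Subtype.val_injective.injOn
    have h2 : θ₀ a ∈ cl K (θ₀ '' {z : cl K (Set.range x0) | (z : L) ∈ Set.range x0}) :=
      map_mem_cl_val _ θ₀ hS'fin (by rw [hS'im]; exact a.2)
    refine cl_mono ?_ h2
    rintro _ ⟨z, ⟨c, hc⟩, rfl⟩
    right
    exact ⟨c, (hθ₀ c z hc.symm).symm⟩
  obtain ⟨y, θ, hθ1, hθ2, hrk⟩ := STEP_free (Set.range x0) (Set.finite_range x0) θ₀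
    (A ∪ Set.range x) (hA.union (Set.finite_range x)) hθA y0
  refine ⟨y, ?_, ?_⟩
  · -- the edge
    have h1 : Edge S.P σ (fun c => (⟨x0 c, mem_cl_of_mem (Or.inl ⟨c, rfl⟩)⟩ :
        cl K (Set.range x0 ∪ Set.range y0)))
        (fun c => (⟨y0 c, mem_cl_of_mem (Or.inr ⟨c, rfl⟩)⟩ :
        cl K (Set.range x0 ∪ Set.range y0))) := by
      have h2 := (conj_of_algHom (cl K (Set.range x0 ∪ Set.range y0)).val
        (Sum.elim (fun c => (⟨x0 c, mem_cl_of_mem (Or.inl ⟨c, rfl⟩)⟩ :
          cl K (Set.range x0 ∪ Set.range y0)))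
        (fun c => (⟨y0 c, mem_cl_of_mem (Or.inr ⟨c, rfl⟩)⟩ :
          cl K (Set.range x0 ∪ Set.range y0))))).symm
      exact ENDS_edge h2 σ Sum.inl Sum.inr h0
    have h3 := ENDS_edge_map θ σ _ _ h1
    have e1 : (fun c => θ (⟨x0 c, mem_cl_of_mem (Or.inl ⟨c, rfl⟩)⟩ :
        cl K (Set.range x0 ∪ Set.range y0))) = x := by
      funext c
      have h4 := hθ1 ⟨x0 c, mem_cl_of_mem ⟨c, rfl⟩⟩ (⟨x0 c, mem_cl_of_mem (Or.inl ⟨c, rfl⟩)⟩ :
        cl K (Set.range x0 ∪ Set.range y0)) rfl
      exact h4.trans (hθ₀ c _ rfl)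
    have e2 : (fun c => θ (⟨y0 c, mem_cl_of_mem (Or.inr ⟨c, rfl⟩)⟩ :
        cl K (Set.range x0 ∪ Set.range y0))) = y := by
      funext c
      exact hθ2 c _ rfl
    rw [e1, e2] at h3
    exact h3
  · have h1 := S.rkV L σ x0 y0 h0
    have h2 := S.rkE L σ x0 y0 h0
    rw [h1, h2] at hrk
    have h3 : (m + 1) * k = m * k + k := by ring
    omega

end Pool.Agent.Helper92.GG
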